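import Pool.Agent.helper80.DP.PSV
import Pool.Agent.helper64.TP.SpecF
import Pool.Agent.helper29.DP.SUB
import Pool.Agent.helper35.DP.BIND
import Pool.Agent.helper64.TP.Conv
import Pool.Agent.helper64.TP.BAll
import Pool.Agent.helper64.TP.Basic
/-!
# tp:PSV. Pivotal sites of the four arm event: one site
-/

namespace TP

open DP

open MeasureTheory

theorem PSV_ar (x : V) (m n : ℕ) :
    (Ev fun c => ar 4 c x m n) = Ev fun c => four c x m n := by
  simp [Ev, ar]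

theorem PSV_loc (j : ℕ) (x : V) (m n : ℕ) : Loc (Ev fun c => ar j c x m n) (ann x m n) := by
  refine Loc.ev (ann_finite x m n) fun c c' h => ?_
  unfold ar
  split_ifs
  · simp only [four, twoCl, Conn.congr h]
  · simp only [two, arm, Conn.congr h]

theorem PSV_indep {F G : Set (V → Bool)} {A A' : Set V} (h : BDis A A') (hF : Loc F A)
    (hG : Loc G A') : Pr (F ∩ G) = Pr F * Pr G :=
  DP.Bindep_Pr h.image hF.coin hG.coin

theorem PSV_bdis {A A' : Set V} (h : ∀ w ∈ A, ∀ w' ∈ A', sd 0 w + 2 ≤ sd 0 w') : BDis A A' := by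
  apply BDis.of_sd
  intro w hw w' hw'
  have h1 := h w hw w' hw'
  have h2 : sd 0 w' ≤ sd 0 w + sd w w' := sd_triangle 0 w w'
  omega

theorem PSV (hPVI : PVI_stmt) (hTRQ : TRQ_stmt) (hQMX : QMX_stmt) (hEXR : EXR_stmt)
    (hQZ : QZ_stmt) : PSV_stmt := by
  classical
  obtain ⟨C, hC, i₁, hq⟩ := hQMX
  obtain ⟨D, hD, i₂, he⟩ := hEXR
  have hprof : Profile (fun _ : V => (0 : ℝ)) := fun v => ⟨le_rfl, zero_le_one⟩
  have hC0 : (0 : ℝ) < C := by linarith
  have hD0 : (0 : ℝ) < D := by linarith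
  refine ⟨max (max i₁ i₂) 2, fun k hk => ⟨C ^ 4 * D ^ 2 + D ^ 5, by positivity, ?_⟩⟩
  have hk1 : i₁ ≤ k := ((le_max_left _ _).trans (le_max_left _ _)).trans hk
  have hk2 : i₂ ≤ k := ((le_max_right _ _).trans (le_max_left _ _)).trans hk
  have hk3 : 2 ≤ k := (le_max_right _ _).trans hk
  have hal : ∀ i, al k i = qa (fun _ => 0) 4 0 (2 ^ k) (2 ^ i) := by
    intro i
    rw [← hQZ 4 0 (2 ^ k) (2 ^ i), PSV_ar]
    rfl
  have hal0 : ∀ i, 0 ≤ al k i := fun i => measureReal_nonneg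
  have h00 : Even ((0 : V).1 + (0 : V).2) := by simp
  intro i v hi hv1 hv2
  refine ⟨fun hv3 => ?_, fun l hl hv3 hv4 => ?_⟩
  · -- near sites
    have hsub : Piv {v} (Ev fun c => four c 0 (2 ^ k) (2 ^ i)) ⊆
        Ev fun c => ar 4 c 0 (2 ^ (k + 5)) (2 ^ i) := by
      rintro b ⟨b', b'', hb, hb1, -⟩
      have h1 : ar 4 (col b') 0 (2 ^ k) (2 ^ i) := by
        have : four (col b') 0 (2 ^ k) (2 ^ i) := hb1
        simpa [ar] using this
      have h2 : ar 4 (col b') 0 (2 ^ (k + 5)) (2 ^ i) :=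
        SUB_ar (Nat.pow_le_pow_right (by norm_num) (by omega))
          (Nat.pow_le_pow_right (by norm_num) (by omega)) le_rfl h1
      have h3 : ar 4 (col b') 0 (2 ^ (k + 5)) (2 ^ i) = ar 4 (col b) 0 (2 ^ (k + 5)) (2 ^ i) := by
        have hcong : ∀ w ∈ ann 0 (2 ^ (k + 5)) (2 ^ i), col b' w = col b w := by
          intro w hw
          apply col_congr
          refine (hb (br w) ?_).1
          intro hbr
          have hbr' : br w = v := hbr
          have a1 : 2 ^ (k + 5) ≤ sd 0 w := hw.1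
          have a2 := sd_br_le w
          rw [hbr', sd_comm w v] at a2
          have a3 : sd 0 w ≤ sd 0 v + sd v w := sd_triangle 0 v w
          have a4 : 2 ^ (k + 5) = 2 * 2 ^ (k + 4) := by rw [pow_succ]; ring
          have a5 : 1 ≤ 2 ^ (k + 4) := Nat.one_le_two_pow
          omega
        simp only [ar, if_true, four, twoCl, Conn.congr hcong]
      show ar 4 (col b) 0 (2 ^ (k + 5)) (2 ^ i)
      rw [← h3]
      exact h2
    have h4 := (he 4 (fun _ => 0) 0 k (i - 5) 5 (Or.inr rfl) hprof h00 hk2 (by omega)).2.1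
    have e1 : i - 5 + 5 = i := by omega
    rw [e1, ← hal, ← hQZ] at h4
    refine (PSV_mono hsub).trans (h4.trans ?_)
    refine mul_le_mul_of_nonneg_right ?_ (hal0 i)
    have : 0 < C ^ 4 * D ^ 2 := by positivity
    linarith
  · -- far sites
    obtain ⟨y, hy1, hy2, hy3⟩ := PSV_even v
    have hli : l + 2 ≤ i := by
      have : 2 ^ l ≤ 2 ^ (i - 2) := hv3.trans hv2
      have := (Nat.pow_le_pow_iff_right (by norm_num : 1 < 2)).1 this
      omega
    have p1 : 2 ^ k * 4 ≤ 2 ^ (l - 2) := by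
      have : 2 ^ k * 4 = 2 ^ (k + 2) := by rw [pow_add]; norm_num
      rw [this]
      exact Nat.pow_le_pow_right (by norm_num) (by omega)
    have p2 : 2 ^ (l - 1) = 2 * 2 ^ (l - 2) := by
      have : l - 1 = (l - 2) + 1 := by omega
      rw [this, pow_succ]; ring
    have p3 : 2 ^ l = 4 * 2 ^ (l - 2) := by
      have : l = (l - 2) + 2 := by omega
      conv_lhs => rw [this, pow_add]
      ring
    have p4 : 2 ^ (l + 1) = 8 * 2 ^ (l - 2) := by
      rw [pow_succ, p3]; ring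
    have p5 : 2 ^ (l + 2) = 16 * 2 ^ (l - 2) := by
      rw [pow_succ, p4]; ring
    have p6 : 16 * 2 ^ (l - 2) ≤ 2 ^ i := by
      rw [← p5]
      exact Nat.pow_le_pow_right (by norm_num) hli
    have p7 : 2 ^ i = 4 * 2 ^ (i - 2) := by
      have : i = (i - 2) + 2 := by omega
      conv_lhs => rw [this, pow_add]
      ring
    have p8 : 4 ≤ 2 ^ k := by
      calc 4 = 2 ^ 2 := by norm_num
        _ ≤ 2 ^ k := Nat.pow_le_pow_right (by norm_num) hk3
    have hball : ∀ w, sd y w ≤ 2 ^ (l - 2) → 2 ^ (l - 1) + 2 ≤ sd 0 w ∧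
        sd 0 w + 2 ≤ 2 ^ (l + 2) ∧ sd 0 w < 2 ^ i := by
      intro w hw
      have t1 : sd 0 v ≤ sd 0 w + sd w v := sd_triangle 0 w v
      have t2 : sd w v ≤ sd w y + sd y v := sd_triangle w y v
      have t3 : sd 0 w ≤ sd 0 v + sd v w := sd_triangle 0 v w
      have t4 : sd v w ≤ sd v y + sd y w := sd_triangle v y w
      rw [sd_comm w y] at t2
      rw [sd_comm v y] at t4
      refine ⟨?_, ?_, ?_⟩ <;> omega
    have hsub : Piv {v} (Ev fun c => four c 0 (2 ^ k) (2 ^ i)) ⊆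
        (Ev fun c => ar 4 c 0 (2 ^ k) (2 ^ (l - 1))) ∩
          ((Ev fun c => ar 4 c y (2 ^ k) (2 ^ (l - 2))) ∩
            (Ev fun c => ar 4 c 0 (2 ^ (l + 2)) (2 ^ i))) := by
      intro b hb
      rw [← PSV_ar] at hb
      have h := hPVI 4 b {v} 0 y (2 ^ k) (2 ^ (l - 1)) (2 ^ (l + 2)) (2 ^ i) (2 ^ k - 2)
        (2 ^ (l - 2)) (Or.inr rfl) (hy1.add hy2)
        (by
          rintro w rfl
          show sd y w ≤ 2 ^ k - 2
          omega) (by omega) (by omega) (by omega)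
        (fun w hw => ⟨by have := (hball w hw).1; omega, by have := (hball w hw).2.1; omega,
          (hball w hw).2.2⟩) hb
      obtain ⟨h1, h2, h3⟩ := h
      refine ⟨h1, ?_, h3 (by omega)⟩
      show ar 4 (col b) y (2 ^ k) (2 ^ (l - 2))
      have e : 2 ^ k - 2 + 2 = 2 ^ k := by omega
      rw [e] at h2
      simpa [ar] using h2
    have hind1 : Pr ((Ev fun c => ar 4 c y (2 ^ k) (2 ^ (l - 2))) ∩
        (Ev fun c => ar 4 c 0 (2 ^ (l + 2)) (2 ^ i))) =
        Pr (Ev fun c => ar 4 c y (2 ^ k) (2 ^ (l - 2))) *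
          Pr (Ev fun c => ar 4 c 0 (2 ^ (l + 2)) (2 ^ i)) := by
      refine PSV_indep (PSV_bdis ?_) (PSV_loc 4 y _ _) (PSV_loc 4 0 _ _)
      intro w hw w' hw'
      have a1 := (hball w hw.2).2.1
      have a2 : 2 ^ (l + 2) ≤ sd 0 w' := hw'.1
      omega
    have hind2 : Pr ((Ev fun c => ar 4 c 0 (2 ^ k) (2 ^ (l - 1))) ∩
        ((Ev fun c => ar 4 c y (2 ^ k) (2 ^ (l - 2))) ∩
          (Ev fun c => ar 4 c 0 (2 ^ (l + 2)) (2 ^ i)))) =
        Pr (Ev fun c => ar 4 c 0 (2 ^ k) (2 ^ (l - 1))) *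
          Pr ((Ev fun c => ar 4 c y (2 ^ k) (2 ^ (l - 2))) ∩
            (Ev fun c => ar 4 c 0 (2 ^ (l + 2)) (2 ^ i))) := by
      refine PSV_indep (A' := ann y (2 ^ k) (2 ^ (l - 2)) ∪ ann 0 (2 ^ (l + 2)) (2 ^ i))
        (PSV_bdis ?_) (PSV_loc 4 0 _ _) (Loc.inter (PSV_loc 4 y _ _) (PSV_loc 4 0 _ _))
      intro w hw w' hw'
      have a0 : sd 0 w ≤ 2 ^ (l - 1) := hw.2
      rcases hw' with hw' | hw'
      · have a1 := (hball w' hw'.2).1
        omega
      · have a2 : 2 ^ (l + 2) ≤ sd 0 w' := hw'.1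
        omega
    refine (PSV_mono hsub).trans ?_
    rw [hind2, hind1, (hTRQ 0 4 y (2 ^ k) (2 ^ (l - 2)) hy1 hy2).2, hQZ, hQZ, hQZ]
    have q1 := (hq 4 (fun _ => 0) 0 k (l - 1) 3 i (Or.inr rfl) hprof h00 hk1 (by omega)
      (by omega)).1
    have q2 := (he 4 (fun _ => 0) 0 k (l - 2) 2 (Or.inr rfl) hprof h00 hk2 (by omega)).1
    have e1 : l - 1 + 3 = l + 2 := by omega
    have e2 : l - 2 + 2 = l := by omega
    rw [e1, ← hal i] at q1
    rw [e2, ← hal l] at q2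
    have n1 : 0 ≤ qa (fun _ : V => (0 : ℝ)) 4 0 (2 ^ k) (2 ^ (l - 2)) := measureReal_nonneg
    have n2 : 0 ≤ C ^ (3 + 1) * al k i := by
      have := hal0 i
      positivity
    calc qa (fun _ => 0) 4 0 (2 ^ k) (2 ^ (l - 1)) *
          (qa (fun _ => 0) 4 0 (2 ^ k) (2 ^ (l - 2)) * qa (fun _ => 0) 4 0 (2 ^ (l + 2)) (2 ^ i))
        = (qa (fun _ => 0) 4 0 (2 ^ k) (2 ^ (l - 1)) * qa (fun _ => 0) 4 0 (2 ^ (l + 2)) (2 ^ i)) *
            qa (fun _ => 0) 4 0 (2 ^ k) (2 ^ (l - 2)) := by ring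
      _ ≤ (C ^ (3 + 1) * al k i) * (D ^ 2 * al k l) := mul_le_mul q1 q2 n1 n2
      _ = C ^ 4 * D ^ 2 * (al k i * al k l) := by ring
      _ ≤ (C ^ 4 * D ^ 2 + D ^ 5) * (al k i * al k l) := by
        refine mul_le_mul_of_nonneg_right ?_ (mul_nonneg (hal0 i) (hal0 l))
        have : 0 < D ^ 5 := by positivity
        linarith

end TP
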